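import Pool.Agent.K3h84.GD.Stm
import Pool.Agent.Y729.FW.Surj

/-!
# The archimedean term near the cusp (bricks ASY and LARGE of helper84's project GD)
-/

set_option autoImplicit false

namespace Pool.Agent.K3h23.GD

open UpperHalfPlane ModularForm Filter Topology
open Pool.Agent.TH876.FH (jInv arch)
open scoped MatrixGroups Real Modular

/-- `log ‖Δ(τ)‖ + 2 π Im τ → 0` -/
theorem tendsto_a :
    Tendsto (fun τ : ℍ => Real.log ‖discriminant τ‖ + 2 * π * τ.im) atImInfty (𝓝 0) := by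
  have h2 := tendsto_atImInfty_tprod_one_sub_eta_q_pow.norm
  rw [norm_one] at h2
  have h3 := (Real.continuousAt_log one_ne_zero).tendsto.comp h2
  rw [Real.log_one] at h3
  refine h3.congr fun τ => ?_
  have hq : ‖Function.Periodic.qParam 1 (τ : ℂ)‖ = Real.exp (-(2 * π * τ.im)) := by
    simp [Function.Periodic.qParam, Complex.norm_exp]
  have h0 := discriminant_ne_zero τ
  rw [discriminant_eq_q_prod] at h0
  have h1 := right_ne_zero_of_mul h0
  rw [Function.comp_apply, discriminant_eq_q_prod, norm_mul, hq,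
    Real.log_mul (Real.exp_pos _).ne' (norm_ne_zero_iff.2 h1), Real.log_exp]
  ring

/-- `log ‖E₄(τ)‖ → 0` -/
theorem tendsto_e :
    Tendsto (fun τ : ℍ => Real.log ‖(ModularForm.E₄ : ℍ → ℂ) τ‖) atImInfty (𝓝 0) := by
  have h2 := Pool.Agent.Y729.FW.tendsto_E4.norm
  rw [norm_one] at h2
  have h3 := (Real.continuousAt_log one_ne_zero).tendsto.comp h2
  rw [Real.log_one] at h3
  exact h3

theorem log_sub_le {y y' : ℝ} (h : 1 ≤ y) (h' : 1 ≤ y') :
    Real.log y - Real.log y' ≤ |y - y'| := by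
  rw [← Real.log_div (by positivity) (by positivity)]
  have h1 := Real.log_le_sub_one_of_pos (show 0 < y / y' by positivity)
  have h2 : y / y' - 1 = (y - y') / y' := by field_simp
  have h3 : (y - y') / y' ≤ |y - y'| := by
    rw [div_le_iff₀ (by positivity)]
    calc y - y' ≤ |y - y'| := le_abs_self _
      _ = |y - y'| * 1 := (mul_one _).symm
      _ ≤ |y - y'| * y' := mul_le_mul_of_nonneg_left h' (abs_nonneg _)
  linarith

theorem asy : Pool.Agent.K3h84.GD.S_ASY := by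
  intro ε hε
  have ha := tendsto_a.eventually (Icc_mem_nhds (show -(ε / 54) < 0 by linarith)
    (show (0 : ℝ) < ε / 54 by positivity))
  have he := tendsto_e.eventually (Icc_mem_nhds (show -(ε / 54) < 0 by linarith)
    (show (0 : ℝ) < ε / 54 by positivity))
  have hne := (Pool.Agent.Y729.FW.tendsto_E4.norm).eventually
    (Icc_mem_nhds (show (1 : ℝ) / 2 < ‖(1 : ℂ)‖ by rw [norm_one]; norm_num)
      (show ‖(1 : ℂ)‖ < 2 by rw [norm_one]; norm_num))
  obtain ⟨A, hA⟩ := (atImInfty_mem _).mp ((ha.and he).and hne)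
  refine ⟨max A 1, fun τ τ' h1 h2 h3 => ?_⟩
  obtain ⟨⟨a1, e1⟩, n1⟩ := hA τ ((le_max_left _ _).trans h1)
  obtain ⟨⟨a2, e2⟩, n2⟩ := hA τ' ((le_max_left _ _).trans h2)
  have y1 : 1 ≤ τ.im := (le_max_right _ _).trans h1
  have y2 : 1 ≤ τ'.im := (le_max_right _ _).trans h2
  have key : ∀ σ : ℍ, 1 / 2 ≤ ‖(ModularForm.E₄ : ℍ → ℂ) σ‖ →
      arch σ = -Real.log ‖discriminant σ‖ - 6 * Real.log σ.im ∧
      Real.log ‖jInv σ‖ = 3 * Real.log ‖(ModularForm.E₄ : ℍ → ℂ) σ‖ -
        Real.log ‖discriminant σ‖ := by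
    intro σ hσ
    have p := σ.im_pos
    have q := norm_pos_iff.mpr (discriminant_ne_zero σ)
    constructor
    · rw [arch, Real.log_mul q.ne' (by positivity), Real.log_pow]
      push_cast
      ring
    · have hn : 0 < ‖(ModularForm.E₄ : ℍ → ℂ) σ‖ := by linarith
      rw [jInv, norm_div, norm_pow, Real.log_div (by positivity) q.ne', Real.log_pow]
      push_cast
      ring
  obtain ⟨k1, j1⟩ := key τ n1.1
  obtain ⟨k2, j2⟩ := key τ' n2.1
  rw [h3] at j1
  have hj := j1.symm.trans j2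
  have l1 := log_sub_le y1 y2
  have l2 := log_sub_le y2 y1
  rw [abs_sub_comm] at l2
  obtain ⟨a1l, a1r⟩ := a1
  obtain ⟨a2l, a2r⟩ := a2
  obtain ⟨e1l, e1r⟩ := e1
  obtain ⟨e2l, e2r⟩ := e2
  have hpi : 3 < π := Real.pi_gt_three
  have hy : 2 * π * (τ.im - τ'.im) =
      3 * (Real.log ‖(ModularForm.E₄ : ℍ → ℂ) τ'‖ - Real.log ‖(ModularForm.E₄ : ℍ → ℂ) τ‖) +
        ((Real.log ‖discriminant τ‖ + 2 * π * τ.im) -
          (Real.log ‖discriminant τ'‖ + 2 * π * τ'.im)) := by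
    linear_combination hj
  have hy1 : |2 * π * (τ.im - τ'.im)| ≤ 8 * (ε / 54) := by
    rw [hy, abs_le]
    constructor <;> linarith
  have hy2 : 6 * |τ.im - τ'.im| ≤ 8 * (ε / 54) := by
    rw [abs_mul, abs_of_pos (show 0 < 2 * π by positivity)] at hy1
    have := abs_nonneg (τ.im - τ'.im)
    nlinarith
  rw [k1, k2, abs_le]
  constructor <;> linarith

theorem large : Pool.Agent.K3h84.GD.S_LARGE := by
  intro Y
  obtain ⟨C, hC⟩ := (ModularGroup.isCompact_truncatedFundamentalDomain Y).exists_bound_of_continuousOn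
    Pool.Agent.Y729.FW.cont_j.continuousOn
  refine ⟨C + 1, fun τ hτ => ?_⟩
  obtain ⟨g, hg⟩ := ModularGroup.exists_smul_mem_fd τ
  refine ⟨g, ?_⟩
  by_contra hlt
  have h1 := hC (g • τ) ⟨hg, (not_le.1 hlt).le⟩
  rw [Pool.Agent.Y729.FW.j_smul] at h1
  linarith

end Pool.Agent.K3h23.GD
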